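import Pool.Agent.H.MP_8b3296_mp.D

open MeasureTheory Set Filter
open scoped RealInnerProductSpace

namespace Pool.Agent.Results.MP_8b3296_mp.Unbounded

abbrev E := EuclideanSpace ℝ (Fin 3)

/-- `G` is the gradient of `u` in the sense of distributions. -/
def WG (u : E → ℝ) (G : E → E) : Prop :=
  ∀ φ : E → ℝ, ContDiff ℝ (⊤ : ℕ∞) φ → HasCompactSupport φ → ∀ w : E,
    ∫ x, u x * fderiv ℝ φ x w = -∫ x, ⟪G x, w⟫ * φ x

variable {k : ℕ}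

/-- Potential of the nuclei. -/
noncomputable def V (z : Fin k → ℝ) (R : Fin k → E) (x : E) : ℝ := ∑ j, z j / ‖x - R j‖

/-- Repulsion of the nuclei. -/
noncomputable def U (z : Fin k → ℝ) (R : Fin k → E) : ℝ :=
  ∑ i, ∑ j, if i < j then z i * z j / ‖R i - R j‖ else 0

/-- Coulomb self-energy `D(ρ,ρ)`. -/
noncomputable def D (ρ : E → ℝ) : ℝ := 1 / 2 * ∫ q : E × E, ρ q.1 * ρ q.2 / ‖q.1 - q.2‖

noncomputable def J (γ C p t : ℝ) : ℝ := γ / p * t ^ p - 3 * C / 4 * t ^ (4 / 3 : ℝ)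

noncomputable def rho0 (γ C p : ℝ) : ℝ := (C * p / (4 * γ * (p - 1))) ^ (1 / (p - 4 / 3))

noncomputable def alpha (γ C p : ℝ) : ℝ :=
  (3 * p - 4) / (4 * (p - 1)) * rho0 γ C p ^ (1 / 3 : ℝ) * C

noncomputable def Ja (γ C p t : ℝ) : ℝ := J γ C p t + alpha γ C p * t

/-- The energy of the density `ρ`, where `g` is the gradient entering the kinetic term. -/
noncomputable def En (A γ C p : ℝ) (z : Fin k → ℝ) (R : Fin k → E) (ρ : E → ℝ) (g : E → E) : ℝ :=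
  A * (∫ x, ‖g x‖ ^ 2) + (∫ x, Ja γ C p (ρ x)) - (∫ x, V z R x * ρ x) + D ρ + U z R

/-- All integrals in the energy converge. -/
def Conv (γ C p : ℝ) (z : Fin k → ℝ) (R : Fin k → E) (ρ : E → ℝ) (g : E → E) : Prop :=
  Integrable (fun x => ‖g x‖ ^ 2) ∧ Integrable (fun x => Ja γ C p (ρ x)) ∧
    Integrable (fun x => V z R x * ρ x) ∧
    Integrable (fun q : E × E => ρ q.1 * ρ q.2 / ‖q.1 - q.2‖)

/-- The class `G_p`, with `g` the gradient of `ρ^{1/2}`. -/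
def Adm (p : ℝ) (ρ : E → ℝ) (g : E → E) : Prop :=
  Measurable ρ ∧ (∀ x, 0 ≤ ρ x) ∧ Integrable ρ ∧ MemLp ρ (ENNReal.ofReal p) ∧ MemLp g 2 ∧
    WG (fun x => √(ρ x)) g

/-- Energies of admissible densities of mass `l`. -/
def S (A γ C p : ℝ) (z : Fin k → ℝ) (R : Fin k → E) (l : ℝ) : Set ℝ :=
  {e | ∃ ρ g, Adm p ρ g ∧ ∫ x, ρ x = l ∧ e = En A γ C p z R ρ g}

noncomputable def Ea (A γ C p : ℝ) (z : Fin k → ℝ) (R : Fin k → E) (l : ℝ) : ℝ :=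
  sInf (S A γ C p z R l)

open Pool.Agent.H.MP_8b3296_mp in
theorem result (k : ℕ) (_hk : 1 ≤ k) (z : Fin k → ℝ) (hz : ∀ j, 0 < z j) (R : Fin k → E)
    (_hR : Function.Injective R) (A γ C p : ℝ) (hA : 0 < A) (hγ : 0 < γ) (hC : 0 < C)
    (hp : 4 / 3 < p) :
    (∀ ρ g, Adm p ρ g → Conv γ C p z R ρ g) ∧
    (∀ l, 0 ≤ l → (S A γ C p z R l).Nonempty ∧ BddBelow (S A γ C p z R l)) ∧
    (∃ κ K : ℝ, 0 < κ ∧ ∀ l, 0 ≤ l → κ * l - K ≤ Ea A γ C p z R l) ∧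
    ¬AntitoneOn (Ea A γ C p z R) (Ici 0) := by
  have hp0 : 0 < p := by linarith
  obtain ⟨κ, K, hκ, H⟩ := lb1 (R := R) hA hγ hC hp hz
  have h1 : ∀ l, ∀ e ∈ S A γ C p z R l, κ * l - K ≤ e := by
    rintro l e ⟨ρ, g, ⟨a, b, c, d, f, i⟩, rfl, rfl⟩
    obtain ⟨h, e⟩ := ad_sqrt hp0 a b c d f i
    have := H h
    simp only [fun x => congrFun e x] at this
    exact this
  have h2 : ∀ l, 0 ≤ l → (S A γ C p z R l).Nonempty := by
    intro l hl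
    obtain ⟨ρ, g, a, b, c, d, -, f, i, j⟩ := ex_rho hp0 l hl
    exact ⟨_, ρ, g, ⟨a, b, c, d, f, i⟩, j, rfl⟩
  have h3 : ∀ l, 0 ≤ l → κ * l - K ≤ Ea A γ C p z R l := fun l hl => le_csInf (h2 l hl) (h1 l)
  refine ⟨?_, fun l hl => ⟨h2 l hl, _, h1 l⟩, ⟨κ, K, hκ, h3⟩, fun h => ?_⟩
  · rintro ρ g ⟨a, b, c, d, f, i⟩
    obtain ⟨h, e⟩ := ad_sqrt hp0 a b c d f i
    have i1 := h.iJa (γ := γ) (C := C)
    have i2 := h.iV (z := z) (R := R)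
    have i3 := h.eD.1
    simp only [fun x => congrFun e x] at i1 i2 i3
    exact ⟨f.norm.integrable_sq, i1, i2, i3⟩
  · have hl : 0 ≤ (|Ea A γ C p z R 0 + K| + 1) / κ := by positivity
    have h4 := (h3 _ hl).trans (h (mem_Ici.2 le_rfl) hl hl)
    rw [mul_div_cancel₀ _ hκ.ne'] at h4
    linarith [le_abs_self (Ea A γ C p z R 0 + K)]

end Pool.Agent.Results.MP_8b3296_mp.Unbounded
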